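import Pool.Agent.Helper15.EP.St

set_option autoImplicit false

open Polynomial

namespace Pool.Agent.Helper94.EP

open Pool.Agent.Helper15.FC Pool.Agent.Helper15.EP

theorem qr_two_le (F : Type) [Field F] [Fintype F] : (2 : ℝ) ≤ qr F := by
  unfold qr
  have h : 1 < Fintype.card F := Fintype.one_lt_card
  exact_mod_cast h

/-- exponents: the constant is absorbed for large `n` -/
theorem absorb (q D e : ℝ) (hq : 2 ≤ q) (he : 0 < e) (hD : 1 ≤ D) :
    ∃ n0 : ℕ, ∀ n : ℕ, n0 ≤ n → D ≤ q ^ (e * n) := by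
  have hq0 : 0 < q := by linarith
  have hlq : 0 < Real.log q := Real.log_pos (by linarith)
  refine ⟨⌈Real.log D / (e * Real.log q)⌉₊, fun n hn => ?_⟩
  have h1 : Real.log D / (e * Real.log q) ≤ n := Nat.ceil_le.mp hn
  have h2 : Real.log D ≤ n * (e * Real.log q) := by
    rwa [div_le_iff₀ (by positivity)] at h1
  have h3 : D = Real.exp (Real.log D) := (Real.exp_log (by linarith)).symm
  rw [h3, Real.rpow_def_of_pos hq0]
  apply Real.exp_le_exp.mpr
  linarith [h2, mul_comm (Real.log q) (e * (n : ℝ))]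

theorem hPT1 (hRDN : StRDN) (hTE1 : StTE1) (hTE2 : StTE2) (hMTB : StMTB) : StPT1 := by
  intro F _ _ k l h ε hh hε
  have hq2 := qr_two_le F
  set q : ℝ := qr F with hqdef
  have hq0 : 0 < q := by linarith
  have hq1 : 1 ≤ q := by linarith
  obtain ⟨C1, hC1, H1⟩ := hMTB F k l h hh
  obtain ⟨C2, hC2, H2⟩ := hTE1 F k (l + 1) (ε / 2) (by positivity)
  obtain ⟨C3, hC3, H3⟩ := hTE2 F k (l + 1) h (ε / 2) hh (by positivity)
  have hqd : 1 ≤ q ^ h.natDegree := one_le_pow₀ hq1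
  have hD : 1 ≤ C1 + C2 * q ^ h.natDegree + C3 := by
    have : 0 ≤ C2 * q ^ h.natDegree := by positivity
    linarith
  obtain ⟨n1, Hn1⟩ := absorb q (C1 + C2 * q ^ h.natDegree + C3) (ε / 4) hq2 (by positivity) hD
  refine ⟨ε / 4, max n1 (h.natDegree + 1), by positivity, ?_⟩
  intro n x y i0 hn hx hy hxe hye hcase
  have hn1 : n1 ≤ n := le_trans (le_max_left _ _) hn
  have hn2 : h.natDegree < n := lt_of_lt_of_le (Nat.lt_succ_self _) (le_trans (le_max_right _ _) hn)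
  have hdeg : h.degree < n := by
    rw [Polynomial.degree_eq_natDegree hh]
    exact_mod_cast hn2
  have hR := hRDN F k (l + 1) n x y i0 h hx hy hdeg
  set x' : Fin k → ℕ := fun i : Fin k => x (i0.succAbove i) with hx'
  have hsum : x i0 + ∑ i, x' i = n := by
    rw [← hx, Fin.sum_univ_succAbove _ i0]
  have hμ : ((∑ i, x' i : ℕ) : ℝ) = (n : ℝ) - x i0 := by
    have : (x i0 : ℝ) + ((∑ i, x' i : ℕ) : ℝ) = n := by exact_mod_cast hsum
    linarith
  have hμn : (n : ℝ) - x i0 ≤ n := by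
    have : (0 : ℝ) ≤ x i0 := Nat.cast_nonneg _
    linarith
  -- main term
  have hM := H1 x' y ⌈ε * n⌉₊ (fun i => Nat.ceil_le.mpr (hxe _)) (fun j => Nat.ceil_le.mpr (hye _))
  rw [hy] at hM
  have hqn : (q : ℝ) ^ n = q ^ ((n : ℕ) : ℝ) := (Real.rpow_natCast q n).symm
  have hM2 : C1 * q ^ n * q ^ (-(1 / 2 : ℝ) * (⌈ε * n⌉₊ : ℝ)) ≤ C1 * q ^ ((1 - ε / 2) * n) := by
    rw [mul_assoc, hqn, ← Real.rpow_add hq0]
    apply mul_le_mul_of_nonneg_left _ (by linarith)
    apply Real.rpow_le_rpow_of_exponent_le hq1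
    have := Nat.le_ceil (ε * n)
    linarith
  -- error term
  have hE : ∑ a ∈ Tup F x', |(AP y (∏ i, a i) h : ℝ) - AV y (∏ i, a i) h| ≤
      (C2 * q ^ h.natDegree + C3) * q ^ ((1 - ε / 2) * n) := by
    have hpos : 0 < q ^ ((1 - ε / 2) * n) := Real.rpow_pos_of_pos hq0 _
    rcases hcase with hc | ⟨j, j', hjj, hc⟩
    · have h2 := H2 x' y h hh
      rw [hy, hμ] at h2
      refine le_trans h2 ?_
      have hs : Real.sqrt (qr F) ^ n = q ^ ((1 / 2 : ℝ) * n) := by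
        rw [← hqdef, Real.sqrt_eq_rpow, ← Real.rpow_natCast, ← Real.rpow_mul hq0.le]
      rw [hs, mul_assoc, ← hqdef, ← Real.rpow_add hq0]
      have h4 : q ^ ((1 + ε / 2) * ((n : ℝ) - x i0) + 1 / 2 * n) ≤ q ^ ((1 - ε / 2) * n) := by
        apply Real.rpow_le_rpow_of_exponent_le hq1
        have h5 : (n : ℝ) - x i0 ≤ (1 / 2 - ε) * n := by linarith
        have h6 : (1 + ε / 2) * ((n : ℝ) - x i0) ≤ (1 + ε / 2) * ((1 / 2 - ε) * n) :=
          mul_le_mul_of_nonneg_left h5 (by positivity)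
        have h7 : (0 : ℝ) ≤ n := Nat.cast_nonneg _
        nlinarith [mul_nonneg hε.le h7, mul_nonneg (mul_nonneg hε.le hε.le) h7]
      calc C2 * q ^ h.natDegree * q ^ ((1 + ε / 2) * ((n : ℝ) - x i0) + 1 / 2 * n)
          ≤ C2 * q ^ h.natDegree * q ^ ((1 - ε / 2) * n) :=
            mul_le_mul_of_nonneg_left h4 (by positivity)
        _ ≤ (C2 * q ^ h.natDegree + C3) * q ^ ((1 - ε / 2) * n) := by
            apply mul_le_mul_of_nonneg_right _ hpos.le
            linarith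
    · have h3 := H3 x' y j j' hjj
      rw [hy, hμ, ← hqdef] at h3
      have hyy : (q : ℝ) ^ (y j + y j') = q ^ (((y j : ℝ) + y j')) := by
        rw [← Real.rpow_natCast]
        push_cast
        rfl
      have hpy : 0 < q ^ (((y j : ℝ) + y j')) := Real.rpow_pos_of_pos hq0 _
      rw [hyy, hqn] at h3
      have h4 : C3 * q ^ ((n : ℕ) : ℝ) * q ^ ((3 / 2 + ε / 2) * ((n : ℝ) - x i0)) ≤
          (C3 * q ^ ((1 - ε / 2) * n)) * q ^ (((y j : ℝ) + y j')) := by
        rw [mul_assoc, mul_assoc, ← Real.rpow_add hq0, ← Real.rpow_add hq0]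
        apply mul_le_mul_of_nonneg_left _ (by linarith)
        apply Real.rpow_le_rpow_of_exponent_le hq1
        have h7 : (0 : ℝ) ≤ n := Nat.cast_nonneg _
        have h8 : ε / 2 * ((n : ℝ) - x i0) ≤ ε / 2 * n :=
          mul_le_mul_of_nonneg_left hμn (by positivity)
        nlinarith [h8, hc]
      have h5 := le_of_mul_le_mul_right (le_trans h3 h4) hpy
      refine le_trans h5 ?_
      apply mul_le_mul_of_nonneg_right _ hpos.le
      have : 0 ≤ C2 * q ^ h.natDegree := by positivity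
      linarith
  -- assembly
  have hsumAP : (NS x y h : ℝ) = ∑ a ∈ Tup F x', (AP y (∏ i, a i) h : ℝ) := by
    rw [hR]
    push_cast
    rfl
  have hsplit : (NS x y h : ℝ) - q ^ n * ∑' i : ℕ, Gs k l h i =
      ∑ a ∈ Tup F x', ((AP y (∏ i, a i) h : ℝ) - AV y (∏ i, a i) h) +
      (∑ a ∈ Tup F x', AV y (∏ i, a i) h - q ^ n * ∑' i : ℕ, Gs k l h i) := by
    rw [hsumAP, Finset.sum_sub_distrib]
    ring
  rw [hsplit]
  have hfin : C1 * q ^ ((1 - ε / 2) * n) + (C2 * q ^ h.natDegree + C3) * q ^ ((1 - ε / 2) * n) ≤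
      q ^ ((1 - ε / 4) * n) := by
    have e1 : q ^ ((1 - ε / 4) * n) = q ^ (ε / 4 * n) * q ^ ((1 - ε / 2) * n) := by
      rw [← Real.rpow_add hq0]
      congr 1
      ring
    rw [e1, ← add_mul]
    apply mul_le_mul_of_nonneg_right _ (Real.rpow_pos_of_pos hq0 _).le
    have := Hn1 n hn1
    linarith
  calc |∑ a ∈ Tup F x', ((AP y (∏ i, a i) h : ℝ) - AV y (∏ i, a i) h) +
      (∑ a ∈ Tup F x', AV y (∏ i, a i) h - q ^ n * ∑' i : ℕ, Gs k l h i)|
      ≤ |∑ a ∈ Tup F x', ((AP y (∏ i, a i) h : ℝ) - AV y (∏ i, a i) h)| +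
        |∑ a ∈ Tup F x', AV y (∏ i, a i) h - q ^ n * ∑' i : ℕ, Gs k l h i| := abs_add_le _ _
    _ ≤ ∑ a ∈ Tup F x', |(AP y (∏ i, a i) h : ℝ) - AV y (∏ i, a i) h| +
        C1 * q ^ n * q ^ (-(1 / 2 : ℝ) * (⌈ε * n⌉₊ : ℝ)) :=
          add_le_add (Finset.abs_sum_le_sum_abs _ _) hM
    _ ≤ (C2 * q ^ h.natDegree + C3) * q ^ ((1 - ε / 2) * n) + C1 * q ^ ((1 - ε / 2) * n) :=
          add_le_add hE hM2
    _ ≤ q ^ ((1 - ε / 4) * n) := by linarith

end Pool.Agent.Helper94.EP
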